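import Pool.Agent.R600.AK.CA
import Pool.Agent.R600.AK.CB
import Pool.Agent.R600.AK.CD
import Pool.Agent.R600.AK.TR
import Pool.Agent.R600.AK.Mn
import Pool.Agent.R600.AK.Fn

set_option autoImplicit false

/-!
Intervals below a Coxeter element `c`: the order complex of `[e,c]_k` is shellable for every
Coxeter system and every `k`, and the order complex of `[e,c]_{ak}` is shellable for every finite
Coxeter group and every `k`.
-/

namespace Pool.Agent.Results.MP_20db89_co.FiniteCoxeterShellable

open Classical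

/-- `s` is a face of the order complex of the poset `(X, R)`: a finite chain. -/
def IsChainIn {α : Type} (X : Set α) (R : α → α → Prop) (s : Finset α) : Prop :=
  (∀ x ∈ s, x ∈ X) ∧ ∀ x ∈ s, ∀ y ∈ s, R x y ∨ R y x

/-- `s` is a facet of the order complex of `(X, R)`: a maximal chain. -/
def IsFacet {α : Type} (X : Set α) (R : α → α → Prop) (s : Finset α) : Prop :=
  IsChainIn X R s ∧ ∀ t, IsChainIn X R t → s ⊆ t → t = s

/-- The order complex of `(X, R)` is shellable: its facets can be listed without repetition as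
`F 0, …, F (m - 1)` so that for `i < j` there are `l < j` and `x ∈ F j` with
`F i ∩ F j ⊆ F l ∩ F j = F j \ {x}`. -/
def OrderComplexShellable {α : Type} (X : Set α) (R : α → α → Prop) : Prop :=
  ∃ (m : ℕ) (F : Fin m → Finset α), Function.Injective F ∧
    (∀ s, IsFacet X R s ↔ ∃ i, F i = s) ∧
    ∀ i j, i < j → ∃ l < j, ∃ x ∈ F j, F l ∩ F j = (F j).erase x ∧ F i ∩ F j ⊆ F l ∩ F j

variable {B : Type} {M : CoxeterMatrix B} {W : Type} [Group W] (cs : CoxeterSystem M W)

/-- The Bruhat order `a ≤ b`. -/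
def Bruhat : W → W → Prop := Relation.ReflTransGen
  (fun a b => ∃ t, cs.IsReflection t ∧ b = t * a ∧ cs.length a < cs.length b)

/-- The `k`-intermediate order: `u ≤ v` iff there are reflections `t₁, …, t_r` (`r ≥ 0`) of length
at most `2k+1` with `u < t₁u < t₂t₁u < ⋯ < t_r⋯t₁u = v` in the Bruhat order. -/
def KInter (k : ℕ) : W → W → Prop := Relation.ReflTransGen
  (fun a b => ∃ t, cs.IsReflection t ∧ cs.length t ≤ 2 * k + 1 ∧ b = t * a ∧
    Bruhat cs a b ∧ a ≠ b)

/-- `ℓ_k(w)`: the length of a shortest directed path `1 = p₀ → p₁ → ⋯ → p_r = w` in `Ω^k`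
(`a → b` iff `a b⁻¹` is a reflection of length at most `2k+1` and `a < b` in the Bruhat order). -/
noncomputable def lenK (k : ℕ) (w : W) : ℕ :=
  sInf {r | ∃ p : ℕ → W, p 0 = 1 ∧ p r = w ∧ ∀ i < r, cs.IsReflection (p i * (p (i + 1))⁻¹) ∧
    cs.length (p i * (p (i + 1))⁻¹) ≤ 2 * k + 1 ∧ Bruhat cs (p i) (p (i + 1)) ∧
    p i ≠ p (i + 1)}

/-- The left `k`-absolute order: `u ≼ v` iff `ℓ_k(v) = ℓ_k(u) + ℓ_k(v u⁻¹)`. -/
def KAbs (k : ℕ) (u v : W) : Prop := lenK cs k v = lenK cs k u + lenK cs k (v * u⁻¹)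

/-- Let `c = s_{ω₁} ⋯ s_{ω_n}` be a Coxeter element (every generator occurring exactly once).
(1) For every Coxeter system with finite generating set and every `k` the order complex of
`[e,c]_k` is shellable. (2) If the Coxeter group is finite, then for every `k` the order complex
of `[e,c]_{ak}` is shellable too. -/
theorem result : ∀ (B : Type) [Fintype B] (M : CoxeterMatrix B) (W : Type) [Group W]
    (cs : CoxeterSystem M W) (ω : List B), ω.Nodup → (∀ i, i ∈ ω) → ∀ k : ℕ,
    OrderComplexShellable {w | KInter cs k 1 w ∧ KInter cs k w (cs.wordProd ω)} (KInter cs k) ∧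
    (Finite W →
      OrderComplexShellable {w | KAbs cs k 1 w ∧ KAbs cs k w (cs.wordProd ω)} (KAbs cs k)) := by
  intro B _ M W _ cs ω h1 h2 k
  refine ⟨R600.AK.main R600.AK.tr (R600.AK.ccore R600.AK.ca R600.AK.cb) B M W cs ω h1 h2 k, ?_⟩
  intro hfin
  exact R600.AK.main2 B M W cs ω h1 h2 k

end Pool.Agent.Results.MP_20db89_co.FiniteCoxeterShellable
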